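import Pool.Agent.Lib.MP_baa34e_lc.H90.Good

namespace Pool.Agent.Lib.MP_baa34e_lc.H90

open Set Filter Cardinal

set_option linter.deprecated false

lemma exists_hit_of_lt_cov {S : Set C} (hS : mk S < covMeagre) :
    ∃ y, ∀ c ∈ S, DenseCode c → R y c := by
  by_contra hcon
  push Not at hcon
  let F : Set (Set C) := (fun c => {y | ¬ R y c}) '' (S ∩ {c | DenseCode c})
  have hF : covMeagre ≤ Cardinal.mk F := by
    refine csInf_le' ⟨F, rfl, ?_, ?_⟩
    · rintro _ ⟨c, hc, rfl⟩
      have := residual_R hc.2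
      unfold IsMeagre
      convert this using 1
      ext y; simp
    · refine eq_univ_of_forall fun y => ?_
      obtain ⟨c, hc, hd, hR⟩ := hcon y
      exact ⟨_, ⟨c, ⟨hc, hd⟩, rfl⟩, hR⟩
  have : Cardinal.mk F ≤ mk S := mk_image_le.trans (mk_le_mk_of_subset inter_subset_left)
  exact absurd (hF.trans this) (not_le.2 hS)

section
variable {ι : Type} (p : ι → C)

/-- index sets cut out by a `Gδ` set -/
def GI (T : Set ι) : Prop := ∃ G, IsGδ G ∧ ∀ j x, x =ᶠ[atTop] p j → (x ∈ G ↔ j ∈ T)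

lemma GI.union {S T : Set ι} (hS : GI p S) (hT : GI p T) : GI p (S ∪ T) := by
  obtain ⟨G, hG, h⟩ := hS
  obtain ⟨G', hG', h'⟩ := hT
  exact ⟨G ∪ G', hG.union hG', fun j x hx => by simp [h j x hx, h' j x hx]⟩

lemma GI.inter {S T : Set ι} (hS : GI p S) (hT : GI p T) : GI p (S ∩ T) := by
  obtain ⟨G, hG, h⟩ := hS
  obtain ⟨G', hG', h'⟩ := hT
  exact ⟨G ∩ G', hG.inter hG', fun j x hx => by simp [h j x hx, h' j x hx]⟩

lemma GI.univ : GI p Set.univ := ⟨Set.univ, IsGδ.univ, fun j x _ => by simp⟩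

lemma GI.biInter {D : Set ι} (hD : D.Countable) {f : ι → Set ι} (h : ∀ d ∈ D, GI p (f d)) :
    GI p (⋂ d ∈ D, f d) := by
  choose! G hG hG' using h
  refine ⟨⋂ d ∈ D, G d, IsGδ.biInter hD hG, fun j x hx => ?_⟩
  simp only [mem_iInter]
  exact forall₂_congr fun d hd => hG' d hd j x hx

variable [LinearOrder ι] [WellFoundedLT ι]

lemma GI_countable (h1 : ∀ i, GI p (Ici i)) (h2 : ∀ i, GI p (Iic i))
    (h3 : ∀ i, GI p {i}ᶜ) {D : Set ι} (hD : D.Countable) : GI p D := by
  have hIio : ∀ i, GI p (Iio i) := fun i => by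
    have := (h2 i).inter p (h3 i)
    convert this using 1
    ext j; simp [lt_iff_le_and_ne]
  have hIoi : ∀ i, GI p (Ioi i) := fun i => by
    have := (h1 i).inter p (h3 i)
    convert this using 1
    ext j; simp [lt_iff_le_and_ne, eq_comm]
  have hsing : ∀ i, GI p {i} := fun i => by
    have := (h1 i).inter p (h2 i)
    convert this using 1
    ext j; simp [le_antisymm_iff, and_comm]
  have main : ∀ D : Set ι, D.Countable → (∀ d ∈ D, GI p (Ioi d ∪ D)) → GI p D := by
    intro D hD h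
    have hA := GI.biInter p hD h
    have hB : GI p {j | ∃ d ∈ D, j ≤ d} := by
      by_cases hne : {j | ∀ d ∈ D, d < j}.Nonempty
      · obtain ⟨m, hm, hm'⟩ := (wellFounded_lt (α := ι)).has_min _ hne
        convert hIio m using 1
        ext j
        simp only [mem_ofPred_eq, mem_Iio]
        constructor
        · rintro ⟨d, hd, hjd⟩; exact hjd.trans_lt (hm d hd)
        · intro hj
          by_contra hcon
          push Not at hcon
          exact hm' j hcon hj
      · convert GI.univ p using 1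
        refine eq_univ_of_forall fun j => ?_
        by_contra hcon
        simp only [mem_ofPred_eq] at hcon
        push Not at hcon
        exact hne ⟨j, hcon⟩
    convert hA.inter p hB using 1
    ext j
    simp only [mem_inter_iff, mem_iInter, mem_union, mem_Ioi, mem_ofPred_eq]
    constructor
    · intro hj; exact ⟨fun _ _ => Or.inr hj, j, hj, le_rfl⟩
    · rintro ⟨ha, d, hd, hjd⟩
      exact (ha d hd).resolve_left (not_lt.2 hjd)
  have key : ∀ i, ∀ D : Set ι, D.Countable → GI p (Ioi i ∪ D) := by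
    intro i
    induction i using WellFoundedLT.induction with
    | ind i ih =>
      intro D hD
      have hD' : GI p (D ∩ Iio i) :=
        main _ (hD.mono inter_subset_left) fun d hd => ih d hd.2 _ (hD.mono inter_subset_left)
      by_cases hi : i ∈ D
      · convert ((hIoi i).union p hD').union p (hsing i) using 1
        ext j
        simp only [mem_union, mem_Ioi, mem_inter_iff, mem_Iio, mem_singleton_iff]
        rcases lt_trichotomy i j with h | h | h
        · simp [h]
        · subst h; simp [hi]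
        · simp [h, h.ne, not_lt.2 h.le]
      · convert (hIoi i).union p hD' using 1
        ext j
        simp only [mem_union, mem_Ioi, mem_inter_iff, mem_Iio]
        rcases lt_trichotomy i j with h | h | h
        · simp [h]
        · subst h; simp [hi]
        · simp [h, not_lt.2 h.le]
  exact main D hD fun d _ => key d D hD

end

lemma good_of_chain {κ : Cardinal.{0}} (hκ : ℵ₀ < κ)
    (havoid : ∀ Y : Set C, mk Y ≤ κ → ∃ c, DenseCode c ∧ ∀ y ∈ Y, ¬ R y c)
    (hcov : κ ≤ covMeagre) : ∃ B, KDense κ B ∧ SmallHull κ B := by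
  classical
  choose! pick hpick using havoid
  have hh : ∀ S : Set C, mk S < covMeagre → ∃ y, ∀ c ∈ S, DenseCode c → R y c :=
    fun S => exists_hit_of_lt_cov
  choose! hit hhit using hh
  let ι := κ.ord.ToType
  let step : (i : ι) → ((j : ι) → j < i → C × C) → C × C := fun i rec =>
    (pick (range fun j : Iio i => (rec j.1 j.2).2),
      hit (insert (pick (range fun j : Iio i => (rec j.1 j.2).2))
        (range fun j : Iio i => (rec j.1 j.2).1)))
  let q : ι → C × C := (wellFounded_lt (α := ι)).fix step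
  have hq : ∀ i, q i = step i (fun j _ => q j) := fun i =>
    (wellFounded_lt (α := ι)).fix_eq step i
  have hq1 : ∀ i, (q i).1 = pick (range fun j : Iio i => (q j).2) := fun i => by rw [hq i]
  have hq2 : ∀ i, (q i).2 = hit (insert (q i).1 (range fun j : Iio i => (q j).1)) := fun i => by
    rw [hq1 i]; conv_lhs => rw [hq i]
  have hsm : ∀ (i : ι) (f : Iio i → C), mk (range f) < κ := fun i f =>
    mk_range_le.trans_lt (mk_Iio_toType_ord_lt i)
  have hdense : ∀ i, DenseCode (q i).1 := fun i => by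
    rw [hq1 i]; exact (hpick _ (hsm i _).le).1
  have hR : ∀ i j, R (q j).2 (q i).1 ↔ i ≤ j := by
    intro i j
    constructor
    · intro h
      by_contra hlt
      rw [hq1 i] at h
      exact (hpick _ (hsm i _).le).2 _ ⟨⟨j, not_le.1 hlt⟩, rfl⟩ h
    · intro hij
      rw [hq2 j]
      refine hhit _ ?_ _ ?_ (hdense i)
      · refine lt_of_lt_of_le (mk_insert_le.trans_lt ?_) hcov
        exact add_lt_of_lt hκ.le (hsm j _) (one_lt_aleph0.trans hκ)
      · rcases hij.eq_or_lt with rfl | h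
        · exact mem_insert _ _
        · exact mem_insert_of_mem _ ⟨⟨i, h⟩, rfl⟩
  let p : ι → C := fun i => il (q i).1 (q i).2
  have hpe : ∀ i j, p i =ᶠ[atTop] p j → i = j := by
    intro i j h
    have h1 : (q i).2 =ᶠ[atTop] (q j).2 := by simpa [p] using od_congr h
    apply le_antisymm
    · exact (hR i j).1 (R_congr h1 EventuallyEq.rfl ((hR i i).2 le_rfl))
    · exact (hR j i).1 (R_congr h1.symm EventuallyEq.rfl ((hR j j).2 le_rfl))
  have hpi : Function.Injective p := fun i j h => hpe i j (by rw [h])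
  have g1 : ∀ i, GI p (Ici i) := fun i => by
    refine ⟨od ⁻¹' {y | R y (q i).1}, IsGδ.preimage continuous_od (isGδ_R_left _),
      fun j x hx => ?_⟩
    have h1 : od x =ᶠ[atTop] (q j).2 := by simpa [p] using od_congr hx
    rw [mem_Ici, ← hR i j]
    exact ⟨R_congr h1 EventuallyEq.rfl, R_congr h1.symm EventuallyEq.rfl⟩
  have g2 : ∀ i, GI p (Iic i) := fun i => by
    refine ⟨ev ⁻¹' {c | R (q i).2 c}, IsGδ.preimage continuous_ev (isGδ_R_right _),
      fun j x hx => ?_⟩
    have h1 : ev x =ᶠ[atTop] (q j).1 := by simpa [p] using ev_congr hx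
    rw [mem_Iic, ← hR j i]
    exact ⟨R_congr EventuallyEq.rfl h1, R_congr EventuallyEq.rfl h1.symm⟩
  have g3 : ∀ i, GI p {i}ᶜ := fun i => by
    refine ⟨{x | x =ᶠ[atTop] p i}ᶜ, (countable_cls _).isGδ_compl, fun j x hx => ?_⟩
    simp only [mem_compl_iff, mem_ofPred_eq, mem_singleton_iff]
    refine not_congr ⟨fun h => hpe j i (hx.symm.trans h), ?_⟩
    rintro rfl; exact hx
  refine ⟨fm (range p), kdense_fm hκ (by rw [mk_range_eq p hpi, mk_toType, card_ord]), ?_⟩
  intro D hD hDc
  have : ∀ x ∈ D, ∃ j, x =ᶠ[atTop] p j := by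
    intro x hx
    obtain ⟨_, ⟨j, rfl⟩, h⟩ := hD hx
    exact ⟨j, h⟩
  have hne : Nonempty ι := by
    rw [← mk_ne_zero_iff, mk_toType, card_ord]
    exact (aleph0_pos.trans hκ).ne'
  choose! g hg using this
  obtain ⟨G, hG, hG'⟩ := GI_countable p g1 g2 g3 (hDc.image g)
  refine ⟨G, hG, fun x hx => (hG' _ x (hg x hx)).2 ⟨x, hx, rfl⟩, ?_⟩
  refine lt_of_le_of_lt (le_aleph0_iff_set_countable.2 ?_) hκ
  refine (countable_fm ((hDc.image g).image p)).mono ?_
  rintro x ⟨hx1, _, ⟨j, rfl⟩, hx2⟩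
  exact ⟨p j, ⟨j, (hG' j x hx2).1 hx1, rfl⟩, hx2⟩

theorem main_thm (κ : Cardinal.{0}) (hκ : ℵ₀ < κ) (hc : κ < continuum)
    (hcase : (ℵ₀ < κ.ord.cof ∧ κ.ord.cof < aleph Ordinal.omega0) ∨
      (ℵ₀ < κ.ord.cof ∧ ∀ μ < κ.ord.cof, ℵ₀ < μ → μ.ord.cof = ℵ₀ →
        Order.cof {s : Set μ.out // s.Countable} ≤ κ) ∨
      κ ≤ covMeagre)
    (hBA : BAminus κ) : κ < boundingNumber := by
  by_contra hb
  rw [not_lt] at hb
  have havoid : ∀ Y : Set C, mk Y ≤ κ → ∃ c, DenseCode c ∧ ∀ y ∈ Y, ¬ R y c :=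
    fun Y hY => exists_code (meagre_of_BA hκ hc.le hBA hY)
  obtain ⟨Z, hZ, hZ'⟩ := exists_bad hκ hc.le hb
  obtain ⟨B, hB, hB'⟩ : ∃ B, KDense κ B ∧ SmallHull κ B := by
    rcases hcase with ⟨h1, h2⟩ | ⟨h1, h2⟩ | h
    · exact good_of_cov hκ hc.le havoid h1 fun μ hμ h0 h3 =>
        absurd h3 (no_singular (hμ.trans h2) h0)
    · exact good_of_cov hκ hc.le havoid h1 h2
    · exact good_of_chain hκ havoid h
  obtain ⟨φ⟩ := hBA B Z hB hZ
  exact hZ' (hB'.transfer φ)

end Pool.Agent.Lib.MP_baa34e_lc.H90
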