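import Pool.Agent.Lib.MP_baa34e_lc.H90.Codes

namespace Pool.Agent.Lib.MP_baa34e_lc.H90

open Set Filter Cardinal

/-- every countable subset has a `Gδ` hull with fewer than `κ` points of the set -/
def SmallHull (κ : Cardinal.{0}) (B : Set C) : Prop :=
  ∀ D ⊆ B, D.Countable → ∃ G, IsGδ G ∧ D ⊆ G ∧ mk (G ∩ B : Set C) < κ

lemma exists_Gδ_ext {Z : Set C} {S : Set Z} (hS : IsGδ S) :
    ∃ G : Set C, IsGδ G ∧ Subtype.val ⁻¹' G = S := by
  obtain ⟨f, hf, rfl⟩ := isGδ_iff_eq_iInter_nat.1 hS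
  choose U hU hU' using fun n => isOpen_induced_iff.1 (hf n)
  refine ⟨⋂ n, U n, IsGδ.iInter_of_isOpen hU, ?_⟩
  rw [preimage_iInter]
  exact iInter_congr hU'

lemma SmallHull.transfer {κ : Cardinal.{0}} {B Z : Set C} (h : SmallHull κ B) (φ : B ≃ₜ Z) :
    SmallHull κ Z := by
  intro D hD hDc
  let D' : Set C := Subtype.val '' (φ ⁻¹' (Subtype.val ⁻¹' D))
  have hD'c : D'.Countable := by
    refine Countable.image ?_ _
    refine Countable.preimage_of_injOn ?_ φ.injective.injOn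
    exact hDc.preimage_of_injOn Subtype.val_injective.injOn
  obtain ⟨G, hG, hDG, hGc⟩ := h D' (by rintro _ ⟨x, -, rfl⟩; exact x.2) hD'c
  have h1 : IsGδ (φ.symm ⁻¹' (Subtype.val ⁻¹' G) : Set Z) :=
    IsGδ.preimage φ.symm.continuous (IsGδ.preimage continuous_subtype_val hG)
  obtain ⟨G', hG', hG'e⟩ := exists_Gδ_ext h1
  refine ⟨G', hG', fun x hx => ?_, lt_of_le_of_lt ?_ hGc⟩
  · have : (⟨x, hD hx⟩ : Z) ∈ Subtype.val ⁻¹' G' := by
      rw [hG'e]
      exact hDG ⟨φ.symm ⟨x, hD hx⟩, by simpa using hx, rfl⟩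
    exact this
  · refine mk_le_of_injective (f := fun x : (G' ∩ Z : Set C) =>
      (⟨(φ.symm ⟨x.1, x.2.2⟩).1, ?_, (φ.symm ⟨x.1, x.2.2⟩).2⟩ : (G ∩ B : Set C))) ?_
    · have : (⟨x.1, x.2.2⟩ : Z) ∈ Subtype.val ⁻¹' G' := x.2.1
      rw [hG'e] at this
      exact this
    · intro x y hxy
      have h1 : φ.symm ⟨x.1, x.2.2⟩ = φ.symm ⟨y.1, y.2.2⟩ :=
        Subtype.ext (Subtype.mk.inj hxy)
      have h2 := φ.symm.injective h1
      exact Subtype.ext (Subtype.mk.inj h2)

/-- running maximum -/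
def rmax (f : ℕ → ℕ) (j : ℕ) : ℕ := (Finset.range (j + 1)).sup f

lemma le_rmax (f : ℕ → ℕ) {k j : ℕ} (h : k ≤ j) : f k ≤ rmax f j :=
  Finset.le_sup (f := f) (Finset.mem_range.2 (by omega))

def Sparse (f : ℕ → ℕ) : Set C :=
  {x | ∀ j, x j = true → ∀ m, j < m → m ≤ rmax f j → x m = false}

def pts (f : ℕ → ℕ) : ℕ → ℕ
  | 0 => 0
  | i + 1 => pts f i + rmax f (pts f i) + 1

lemma pts_strictMono (f : ℕ → ℕ) : StrictMono (pts f) :=
  strictMono_nat_of_lt_succ fun i => by simp only [pts]; omega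

lemma continuum_le_sparse (f : ℕ → ℕ) : continuum ≤ mk (Sparse f) := by
  classical
  rw [← mk_C]
  let g : C → C := fun z n => decide (∃ i, pts f i = n ∧ z i = true)
  have hg : ∀ z, g z ∈ Sparse f := by
    intro z j hj m hjm hm
    simp only [g, decide_eq_true_eq] at hj
    obtain ⟨i, rfl, -⟩ := hj
    simp only [g, decide_eq_false_iff_not]
    rintro ⟨i', rfl, -⟩
    have h1 : i < i' := (pts_strictMono f).lt_iff_lt.1 hjm
    have h2 : pts f (i + 1) ≤ pts f i' := (pts_strictMono f).monotone h1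
    simp only [pts] at h2
    omega
  refine mk_le_of_injective (f := fun z => (⟨g z, hg z⟩ : Sparse f)) ?_
  intro z w h
  have h' : g z = g w := congrArg Subtype.val h
  funext i
  have := congrFun h' (pts f i)
  simp only [g, (pts_strictMono f).injective.eq_iff, exists_eq_left, decide_eq_decide] at this
  cases hz : z i <;> cases hw : w i <;> simp_all

lemma sparse_subset {G : Set C} (hG : IsGδ G) (hD : fm {fun _ => false} ⊆ G) :
    ∃ g : ℕ → ℕ, ∀ f : ℕ → ℕ, (∃ᶠ k in atTop, g k < f k) → Sparse f ⊆ G := by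
  obtain ⟨U, hU, rfl⟩ := isGδ_iff_eq_iInter_nat.1 hG
  have key : ∀ (k : ℕ) (p : (Fin k → Bool) × ℕ), ∃ m, ∀ y : C,
      (∀ j < m, y j = if h : j < k then p.1 ⟨j, h⟩ else false) → y ∈ U p.2 := by
    intro k p
    refine exists_cyl (hU p.2) (mem_iInter.1 (hD ⟨_, rfl, ?_⟩) p.2)
    exact eventually_atTop.2 ⟨k, fun j hj => by simp [not_lt.2 hj]⟩
  choose M hM using key
  let g0 : ℕ → ℕ := fun k => (Finset.univ ×ˢ Finset.range (k + 1)).sup (M k) + k + 1
  let g : ℕ → ℕ := rmax g0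
  have hgm : Monotone g := fun a b hab =>
    Finset.sup_mono (Finset.range_subset_range.2 (by omega))
  have hgk : ∀ k, k < g k := fun k => lt_of_lt_of_le (by simp only [g0]; omega) (le_rmax g0 le_rfl)
  have hgap : ∀ (x : C) (k n : ℕ), n ≤ k → (∀ j, k ≤ j → j < g k → x j = false) → x ∈ U n := by
    intro x k n hn hx
    refine hM k ((fun j => x j), n) x fun j hj => ?_
    by_cases h : j < k
    · simp [h]
    · simp only [h, dif_neg, not_false_eq_true]
      refine hx j (not_lt.1 h) (lt_of_lt_of_le hj ?_)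
      refine le_trans ?_ (le_rmax g0 le_rfl)
      have : M k ((fun j : Fin k => x j), n) ≤ (Finset.univ ×ˢ Finset.range (k + 1)).sup (M k) :=
        Finset.le_sup (f := M k) (by simp; omega)
      simp only [g0]; omega
  refine ⟨fun k => g (g k), fun f hf x hx => mem_iInter.2 fun n => ?_⟩
  obtain ⟨k, hk, hfk⟩ := frequently_atTop.1 hf n
  by_cases hc : ∀ j, k ≤ j → j < g k → x j = false
  · exact hgap x k n hk hc
  · push Not at hc
    obtain ⟨j, hj1, hj2, hj3⟩ := hc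
    have hj3' : x j = true := by simpa using hj3
    refine hgap x (j + 1) n (by omega) fun m hm1 hm2 => hx j hj3' m (by omega) ?_
    have h1 : g (j + 1) ≤ g (g k) := hgm (by omega)
    have h2 : f k ≤ rmax f j := le_rmax f hj1
    have h3 : g (g k) < f k := hfk
    omega

lemma exists_unbounded : ∃ F : Set (ℕ → ℕ), mk F = boundingNumber ∧
    ¬ ∃ f : ℕ → ℕ, ∀ g ∈ F, ∀ᶠ k in Filter.atTop, g k ≤ f k := by
  have hne : {c : Cardinal.{0} | ∃ F : Set (ℕ → ℕ), Cardinal.mk ↥F = c ∧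
    ¬ ∃ f : ℕ → ℕ, ∀ g ∈ F, ∀ᶠ k in Filter.atTop, g k ≤ f k}.Nonempty := by
    refine ⟨_, univ, rfl, ?_⟩
    rintro ⟨f, hf⟩
    obtain ⟨k, hk⟩ := (hf (fun k => f k + 1) (mem_univ _)).exists
    omega
  exact csInf_mem hne

/-- If `b ≤ κ` there is a `κ`-dense set without small hulls. -/
lemma exists_bad {κ : Cardinal.{0}} (hκ : ℵ₀ < κ) (hc : κ ≤ continuum)
    (hb : boundingNumber ≤ κ) : ∃ Z, KDense κ Z ∧ ¬ SmallHull κ Z := by
  obtain ⟨F, hF, hF'⟩ := exists_unbounded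
  have hX : ∀ f : ℕ → ℕ, ∃ X ⊆ Sparse f, mk X = κ := fun f =>
    le_mk_iff_exists_subset.1 (hc.trans (continuum_le_sparse f))
  choose X hX1 hX2 using hX
  have hFne : F.Nonempty := by
    by_contra h
    rw [not_nonempty_iff_eq_empty] at h
    exact hF' ⟨fun _ => 0, by simp [h]⟩
  let Z0 : Set C := insert (fun _ => false) (⋃ f ∈ F, X f)
  have hZ0 : mk Z0 = κ := by
    apply le_antisymm
    · refine mk_insert_le.trans ?_
      have h1 : mk (⋃ f ∈ F, X f : Set C) ≤ κ := by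
        refine (mk_biUnion_le _ _).trans ?_
        have : (⨆ x : F, mk (X x.1)) ≤ κ := ciSup_le' fun x => (hX2 x.1).le
        exact (mul_le_mul' (hF.le.trans hb) this).trans (mul_eq_self hκ.le).le
      exact (add_le_add h1 (one_le_aleph0.trans hκ.le)).trans (add_eq_self hκ.le).le
    · obtain ⟨f, hf⟩ := hFne
      rw [← hX2 f]
      exact mk_le_mk_of_subset ((subset_biUnion_of_mem hf).trans (subset_insert _ _))
  refine ⟨fm Z0, kdense_fm hκ hZ0, fun h => ?_⟩
  obtain ⟨G, hG, hDG, hGc⟩ := h (fm {fun _ => false})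
    (fm_mono (singleton_subset_iff.2 (mem_insert _ _))) (countable_fm (countable_singleton _))
  obtain ⟨g, hg⟩ := sparse_subset hG hDG
  have : ∃ f ∈ F, ∃ᶠ k in atTop, g k < f k := by
    by_contra hcon
    push Not at hcon
    exact hF' ⟨g, fun f hf => by simpa [Filter.Frequently] using hcon f hf⟩
  obtain ⟨f, hf, hfg⟩ := this
  have hsub : X f ⊆ G ∩ fm Z0 := fun x hx =>
    ⟨hg f hfg (hX1 f hx), subset_fm _ (mem_insert_of_mem _ (mem_biUnion hf hx))⟩
  have := (mk_le_mk_of_subset hsub).trans_lt hGc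
  exact this.ne (hX2 f)

end Pool.Agent.Lib.MP_baa34e_lc.H90
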