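import Pool.Agent.Lib.MP_baa34e_lc.H90.Defs

namespace Pool.Agent.Lib.MP_baa34e_lc.H90

open Set Filter Cardinal

abbrev C := ℕ → Bool

lemma exists_cyl {U : Set C} (hU : IsOpen U) {x : C} (hx : x ∈ U) :
    ∃ n, ∀ y : C, (∀ k < n, y k = x k) → y ∈ U := by
  obtain ⟨t, ⟨z, n, rfl⟩, hxt, htU⟩ :=
    (PiNat.isTopologicalBasis_cylinders (fun _ : ℕ => Bool)).exists_subset_of_mem_open hx hU
  refine ⟨n, fun y hy => htU ?_⟩
  rw [PiNat.mem_cylinder_iff] at hxt ⊢
  intro i hi
  rw [hy i hi, hxt i hi]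

lemma isOpen_cyl (x : C) (n : ℕ) : IsOpen {y : C | ∀ k < n, y k = x k} := by
  have := PiNat.isOpen_cylinder (fun _ : ℕ => Bool) x n
  convert this using 1
  ext y
  simp [PiNat.mem_cylinder_iff]

lemma isOpen_of_cyl {U : Set C} (h : ∀ x ∈ U, ∃ n, ∀ y : C, (∀ k < n, y k = x k) → y ∈ U) :
    IsOpen U := by
  rw [isOpen_iff_forall_mem_open]
  intro x hx
  obtain ⟨n, hn⟩ := h x hx
  exact ⟨_, fun y hy => hn y hy, isOpen_cyl x n, fun k _ => rfl⟩

/-- closure under finite modifications -/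
def fm (Y : Set C) : Set C := {x | ∃ y ∈ Y, x =ᶠ[atTop] y}

lemma subset_fm (Y : Set C) : Y ⊆ fm Y := fun y hy => ⟨y, hy, EventuallyEq.rfl⟩

lemma fm_mono {Y Z : Set C} (h : Y ⊆ Z) : fm Y ⊆ fm Z := fun _ ⟨y, hy, h'⟩ => ⟨y, h hy, h'⟩

lemma countable_cls (y : C) : {x : C | x =ᶠ[atTop] y}.Countable := by
  have : {x : C | x =ᶠ[atTop] y} ⊆
      ⋃ n : ℕ, range (fun s : Fin n → Bool => fun k => if h : k < n then s ⟨k, h⟩ else y k) := by
    intro x hx
    obtain ⟨n, hn⟩ := eventually_atTop.1 hx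
    refine mem_iUnion.2 ⟨n, fun i => x i, ?_⟩
    funext k
    by_cases h : k < n
    · simp [h]
    · simp [h, hn k (not_lt.1 h)]
  exact (countable_iUnion fun n => countable_range _).mono this

lemma countable_fm {Y : Set C} (hY : Y.Countable) : (fm Y).Countable := by
  have : fm Y = ⋃ y ∈ Y, {x : C | x =ᶠ[atTop] y} := by
    ext x; simp [fm]
  rw [this]
  exact hY.biUnion fun y _ => countable_cls y

lemma mk_fm_le (Y : Set C) : mk (fm Y) ≤ mk Y * ℵ₀ := by
  have : fm Y = ⋃ y ∈ Y, {x : C | x =ᶠ[atTop] y} := by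
    ext x; simp [fm]
  rw [this]
  refine (mk_biUnion_le _ _).trans (mul_le_mul_right ?_ _)
  exact ciSup_le' fun y => le_aleph0_iff_set_countable.2 (countable_cls y)

lemma mk_fm_lt {κ : Cardinal.{0}} (hκ : ℵ₀ < κ) {Y : Set C} (hY : mk Y < κ) : mk (fm Y) < κ :=
  (mk_fm_le Y).trans_lt (mul_lt_of_lt hκ.le hY hκ)

/-- glue an initial segment of `x` to the tail of `y` -/
def glue (n : ℕ) (x y : C) : C := fun k => if k < n then x k else y k

lemma glue_ev (n : ℕ) (x y : C) : glue n x y =ᶠ[atTop] y :=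
  eventually_atTop.2 ⟨n, fun k hk => by simp [glue, not_lt.2 hk]⟩

lemma kdense_fm {κ : Cardinal.{0}} (hκ : ℵ₀ < κ) {Y : Set C} (hY : mk Y = κ) :
    KDense κ (fm Y) := by
  intro U hU ⟨x, hx⟩
  apply le_antisymm
  · refine (mk_le_mk_of_subset inter_subset_left).trans ((mk_fm_le Y).trans ?_)
    rw [hY, mul_aleph0_eq hκ.le]
  · by_contra hlt
    rw [not_le] at hlt
    obtain ⟨n, hn⟩ := exists_cyl hU hx
    have hsub : Y ⊆ fm (fm Y ∩ U) := by
      intro y hy
      refine ⟨glue n x y, ⟨⟨y, hy, glue_ev n x y⟩, hn _ fun k hk => by simp [glue, hk]⟩, ?_⟩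
      exact (glue_ev n x y).symm
    have := (mk_le_mk_of_subset hsub).trans_lt (mk_fm_lt hκ hlt)
    exact this.ne hY

lemma mk_C : mk C = continuum := by simp [C]

/-- interleaving -/
def il (a b : C) : C := fun n => if n % 2 = 0 then a (n / 2) else b (n / 2)
def ev (x : C) : C := fun n => x (2 * n)
def od (x : C) : C := fun n => x (2 * n + 1)

@[simp] lemma ev_il (a b : C) : ev (il a b) = a := by
  funext n; simp [ev, il]

@[simp] lemma od_il (a b : C) : od (il a b) = b := by
  funext n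
  have h1 : (2 * n + 1) % 2 = 1 := by omega
  have h2 : (2 * n + 1) / 2 = n := by omega
  simp [od, il, h1, h2]

lemma continuous_ev : Continuous ev := continuous_pi fun _ => continuous_apply _
lemma continuous_od : Continuous od := continuous_pi fun _ => continuous_apply _

lemma ev_congr {x y : C} (h : x =ᶠ[atTop] y) : ev x =ᶠ[atTop] ev y := by
  obtain ⟨n, hn⟩ := eventually_atTop.1 h
  exact eventually_atTop.2 ⟨n, fun k hk => hn _ (by omega)⟩

lemma od_congr {x y : C} (h : x =ᶠ[atTop] y) : od x =ᶠ[atTop] od y := by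
  obtain ⟨n, hn⟩ := eventually_atTop.1 h
  exact eventually_atTop.2 ⟨n, fun k hk => hn _ (by omega)⟩

lemma exists_set_mk {κ : Cardinal.{0}} (h : κ ≤ continuum) : ∃ Y : Set C, mk Y = κ :=
  le_mk_iff_exists_set.1 (by rw [mk_C]; exact h)

/-- Under the weak axiom every set of size at most `κ` is meagre. -/
lemma meagre_of_BA {κ : Cardinal.{0}} (hκ : ℵ₀ < κ) (hc : κ ≤ continuum) (hBA : BAminus κ)
    {Y : Set C} (hY : mk Y ≤ κ) : IsMeagre Y := by
  obtain ⟨W, hW⟩ := exists_set_mk hc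
  set Y0 : Set C := (il (fun _ => false)) '' W with hY0
  have hinj : Function.Injective (il (fun _ => false)) := fun a b h => by
    simpa using congrArg od h
  have hY0c : mk Y0 = κ := by rw [hY0, mk_image_eq hinj, hW]
  have hZc : mk (Y ∪ Y0 : Set C) = κ := by
    apply le_antisymm
    · refine (mk_union_le _ _).trans ?_
      rw [hY0c]
      exact (add_le_add hY le_rfl).trans (add_eq_self hκ.le).le
    · rw [← hY0c]; exact mk_le_mk_of_subset subset_union_right
  obtain ⟨φ⟩ := hBA _ _ (kdense_fm hκ hY0c) (kdense_fm hκ hZc)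
  have h1 : IsMeagre (univ : Set (fm Y0)) := by
    have hsub : (univ : Set (fm Y0)) ⊆
        ⋃ k : ℕ, {a : fm Y0 | ∀ n ≥ k, a.1 (2 * n) = false} := by
      rintro ⟨a, y, ⟨w, -, rfl⟩, hy⟩ -
      obtain ⟨n, hn⟩ := eventually_atTop.1 (ev_congr hy)
      refine mem_iUnion.2 ⟨n, fun m hm => ?_⟩
      have := hn m hm
      simpa [ev, il] using this
    refine IsMeagre.mono hsub (isMeagre_iUnion fun k => IsNowhereDense.isMeagre ?_)
    have hcl : IsClosed {a : fm Y0 | ∀ n ≥ k, a.1 (2 * n) = false} := by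
      simp only [ofPred_forall]
      refine isClosed_iInter fun n => isClosed_iInter fun _ => ?_
      exact isClosed_eq ((continuous_apply _).comp continuous_subtype_val) continuous_const
    rw [hcl.isNowhereDense_iff, eq_empty_iff_forall_notMem]
    intro a ha
    obtain ⟨t, hts, ht, hat⟩ := mem_interior.1 ha
    obtain ⟨V, hV, rfl⟩ := isOpen_induced_iff.1 ht
    obtain ⟨n, hn⟩ := exists_cyl hV hat
    obtain ⟨y, hy, hay⟩ := a.2
    let b : C := fun j => if j = 2 * (n + k) then true else a.1 j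
    have hb : b ∈ fm Y0 := by
      refine ⟨y, hy, EventuallyEq.trans ?_ hay⟩
      exact eventually_atTop.2 ⟨2 * (n + k) + 1, fun j hj => by simp [b]; omega⟩
    have hbV : b ∈ V := hn b fun j hj => by
      have : j ≠ 2 * (n + k) := by omega
      simp [b, this]
    have := hts (show (⟨b, hb⟩ : fm Y0) ∈ Subtype.val ⁻¹' V from hbV) (n + k) (by omega)
    simp [b] at this
  have h2 : IsMeagre (univ : Set (fm (Y ∪ Y0))) := by
    have := φ.isInducing.isMeagre_image h1
    rwa [image_univ, φ.surjective.range_eq] at this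
  have h3 := h2.image_val
  rw [image_univ, Subtype.range_coe] at h3
  exact h3.mono (subset_union_left.trans (subset_fm _))

end Pool.Agent.Lib.MP_baa34e_lc.H90
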