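import Pool.Agent.Lib.MP_baa34e_lc.H90.Basic

namespace Pool.Agent.Lib.MP_baa34e_lc.H90

open Set Filter Cardinal

/-- the segment of `y` of length `l` starting at `m` -/
def seg (y : C) (m l : ℕ) : List Bool := List.ofFn (fun k : Fin l => y (m + k))

lemma seg_congr {y z : C} {m l : ℕ} (h : ∀ k < l, y (m + k) = z (m + k)) :
    seg y m l = seg z m l := by
  unfold seg
  congr 1
  funext k
  exact h k k.2

lemma seg_length (y : C) (m l : ℕ) : (seg y m l).length = l := by simp [seg]

lemma seg_inj {y z : C} {m l l' : ℕ} (h : seg y m l = seg z m l') :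
    l = l' ∧ ∀ k < l, y (m + k) = z (m + k) := by
  have hl : l = l' := by
    have := congrArg List.length h
    simpa [seg_length] using this
  subst hl
  refine ⟨rfl, fun k hk => ?_⟩
  unfold seg at h
  have := List.ofFn_injective h
  exact congrFun this ⟨k, hk⟩

def code (m : ℕ) (s : List Bool) : ℕ := Encodable.encode (m, s)

lemma le_code (m : ℕ) (s : List Bool) : m ≤ code m s := by
  unfold code
  rw [Encodable.encode_prod_val]
  exact Nat.left_le_pair _ _

lemma code_inj {m m' : ℕ} {s s' : List Bool} (h : code m s = code m' s') : m = m' ∧ s = s' := by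
  have := Encodable.encode_injective h
  simpa using this

/-- `y` hits the code `c` infinitely often -/
def R (y c : C) : Prop := ∀ N, ∃ m ≥ N, ∃ l, c (code m (seg y m l)) = true

def DenseCode (c : C) : Prop := ∀ N, ∃ m ≥ N, ∃ s, c (code m s) = true

lemma R_congr {y y' c c' : C} (hy : y =ᶠ[atTop] y') (hc : c =ᶠ[atTop] c') (h : R y c) :
    R y' c' := by
  obtain ⟨a, ha⟩ := eventually_atTop.1 hy
  obtain ⟨b, hb⟩ := eventually_atTop.1 hc
  intro N
  obtain ⟨m, hm, l, hl⟩ := h (max N (max a b))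
  have h1 : N ≤ m := le_trans (le_max_left _ _) hm
  have h2 : a ≤ m := le_trans ((le_max_left _ _).trans (le_max_right _ _)) hm
  have h3 : b ≤ m := le_trans ((le_max_right _ _).trans (le_max_right _ _)) hm
  refine ⟨m, h1, l, ?_⟩
  have : seg y' m l = seg y m l := seg_congr fun k _ => (ha _ (by omega)).symm
  rw [this, ← hb _ (h3.trans (le_code _ _))]
  exact hl

lemma isGδ_R_right (y : C) : IsGδ {c | R y c} := by
  have : {c | R y c} = ⋂ N, ⋃ m, ⋃ (_ : m ≥ N), ⋃ l, {c : C | c (code m (seg y m l)) = true} := by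
    ext c; simp [R]
  rw [this]
  refine IsGδ.iInter_of_isOpen fun N => isOpen_iUnion fun m => isOpen_iUnion fun _ =>
    isOpen_iUnion fun l => ?_
  exact isOpen_of_cyl fun x hx => ⟨code m (seg y m l) + 1, fun z hz => by
    have := hz (code m (seg y m l)) (by omega)
    simp only [mem_ofPred_eq] at hx ⊢
    rw [this, hx]⟩

lemma isOpen_hit (c : C) (N : ℕ) :
    IsOpen {y : C | ∃ m ≥ N, ∃ l, c (code m (seg y m l)) = true} := by
  refine isOpen_of_cyl fun x ⟨m, hm, l, hl⟩ => ⟨m + l, fun z hz => ⟨m, hm, l, ?_⟩⟩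
  rw [seg_congr (z := x) fun k hk => hz _ (by omega)]
  exact hl

lemma isGδ_R_left (c : C) : IsGδ {y | R y c} := by
  have : {y | R y c} = ⋂ N, {y : C | ∃ m ≥ N, ∃ l, c (code m (seg y m l)) = true} := by
    ext y; simp [R]
  rw [this]
  exact IsGδ.iInter_of_isOpen fun N => isOpen_hit c N

lemma residual_R {c : C} (hc : DenseCode c) : {y | R y c} ∈ residual C := by
  have : {y | R y c} = ⋂ N, {y : C | ∃ m ≥ N, ∃ l, c (code m (seg y m l)) = true} := by
    ext y; simp [R]
  rw [this, countable_iInter_mem]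
  intro N
  refine residual_of_dense_open (isOpen_hit c N) ?_
  rw [dense_iff_inter_open]
  intro U hU ⟨x, hx⟩
  obtain ⟨n, hn⟩ := exists_cyl hU hx
  obtain ⟨m, hm, s, hs⟩ := hc (max N n)
  let y : C := fun k => if k < m then x k else s.getD (k - m) false
  refine ⟨y, hn y fun k hk => ?_, m, le_trans (le_max_left _ _) hm, s.length, ?_⟩
  · have : k < m := lt_of_lt_of_le hk (le_trans (le_max_right _ _) hm)
    simp [y, this]
  · have : seg y m s.length = s := by
      apply List.ext_getElem
      · simp [seg]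
      · intro i h1 h2
        simp [seg, y]
    rw [this]; exact hs

lemma exists_hit {S : Set C} (hS : S.Countable) : ∃ y, ∀ c ∈ S, DenseCode c → R y c := by
  have h1 : (⋂ c ∈ S ∩ {c | DenseCode c}, {y | R y c}) ∈ residual C :=
    (countable_bInter_mem (hS.mono inter_subset_left)).2 fun c hc => residual_R hc.2
  obtain ⟨y, hy⟩ := (dense_of_mem_residual h1).nonempty
  refine ⟨y, fun c hc hd => ?_⟩
  exact mem_iInter₂.1 hy c ⟨hc, hd⟩

lemma ext_avoid (F : ℕ → Set C) (hF : ∀ i, IsNowhereDense (F i)) (m : ℕ)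
    (T : Finset ((Fin m → Bool) × ℕ)) :
    ∃ (l : ℕ) (s : C), ∀ y : C, (∀ k < l, y (m + k) = s (m + k)) →
      ∀ i, ((fun j : Fin m => y j), i) ∈ T → y ∉ F i := by
  classical
  induction T using Finset.induction_on with
  | empty => exact ⟨0, fun _ => false, fun y _ i hi => by simp at hi⟩
  | insert p T _ ih =>
    obtain ⟨l, s, hs⟩ := ih
    obtain ⟨t, i0⟩ := p
    let x0 : C := fun k => if h : k < m then t ⟨k, h⟩ else s k
    have hne : ¬ {y : C | ∀ k < m + l, y k = x0 k} ⊆ closure (F i0) := by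
      intro hsub
      have h1 : x0 ∈ interior (closure (F i0)) :=
        mem_interior.2 ⟨_, hsub, isOpen_cyl x0 (m + l), fun k _ => rfl⟩
      rw [hF i0] at h1
      exact h1
    obtain ⟨x1, hx1, hx1'⟩ := not_subset.1 hne
    obtain ⟨n, hn⟩ := exists_cyl isClosed_closure.isOpen_compl hx1'
    refine ⟨max l n, x1, fun y hy i hi => ?_⟩
    rcases Finset.mem_insert.1 hi with h | h
    · obtain ⟨h1, h2⟩ := Prod.mk.inj h
      subst h2
      intro hyF
      refine hn y (fun k hk => ?_) (subset_closure hyF)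
      by_cases hkm : k < m
      · rw [hx1 k (by omega)]
        simp only [x0, hkm, dif_pos]
        exact congrFun h1 ⟨k, hkm⟩
      · have := hy (k - m) (by omega)
        rwa [show m + (k - m) = k by omega] at this
    · refine hs y (fun k hk => ?_) i h
      rw [hy k (by omega), hx1 (m + k) (by omega)]
      simp [x0]

lemma exists_code {Y : Set C} (hY : IsMeagre Y) : ∃ c, DenseCode c ∧ ∀ y ∈ Y, ¬ R y c := by
  classical
  obtain ⟨S, hS1, hS2, hS3⟩ := isMeagre_iff_countable_union_isNowhereDense.1 hY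
  obtain ⟨F, hF⟩ : ∃ F : ℕ → Set C, insert ∅ S = range F :=
    (hS2.insert ∅).exists_eq_range (insert_nonempty _ _)
  have hFn : ∀ i, IsNowhereDense (F i) := by
    intro i
    have : F i ∈ insert ∅ S := hF ▸ mem_range_self i
    rcases this with h | h
    · rw [h]; exact isNowhereDense_empty
    · exact hS1 _ h
  choose l s hs using fun m => ext_avoid F hFn m (Finset.univ ×ˢ Finset.range (m + 1))
  let c : C := fun n => decide (∃ m, n = code m (seg (s m) m (l m)))
  refine ⟨c, fun N => ⟨N, le_rfl, seg (s N) N (l N), by simp only [c, decide_eq_true_eq]; exact ⟨N, rfl⟩⟩, ?_⟩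
  intro y hy hR
  obtain ⟨t, ht, hyt⟩ := hS3 hy
  have : t ∈ range F := hF ▸ mem_insert_of_mem _ ht
  obtain ⟨i, rfl⟩ := this
  obtain ⟨m, hm, l', hl'⟩ := hR i
  simp only [c, decide_eq_true_eq] at hl'
  obtain ⟨m', hm'⟩ := hl'
  obtain ⟨rfl, h2⟩ := code_inj hm'
  obtain ⟨rfl, h3⟩ := seg_inj h2
  exact hs m y h3 i (by simp; omega) hyt

end Pool.Agent.Lib.MP_baa34e_lc.H90
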