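import Mathlib

/-!
Definitions for the weak Baumgartner axiom on the Cantor space.
-/

namespace Pool.Agent.Lib.MP_baa34e_lc.H90

open Set

/-- `A ⊆ 2^ω` is `κ`-dense: it meets every nonempty open set in exactly `κ` points. -/
def KDense (κ : Cardinal.{0}) (A : Set (ℕ → Bool)) : Prop :=
  ∀ U : Set (ℕ → Bool), IsOpen U → U.Nonempty → Cardinal.mk ↥(A ∩ U) = κ

/-- The weak Baumgartner axiom for `2^ω`: any two `κ`-dense subsets are homeomorphic
as subspaces. -/
def BAminus (κ : Cardinal.{0}) : Prop :=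
  ∀ A B : Set (ℕ → Bool), KDense κ A → KDense κ B → Nonempty (↥A ≃ₜ ↥B)

/-- The bounding number: the least size of a family in `ω^ω` with no single `≤*`-bound. -/
noncomputable def boundingNumber : Cardinal.{0} :=
  sInf {c : Cardinal.{0} | ∃ F : Set (ℕ → ℕ), Cardinal.mk ↥F = c ∧
    ¬ ∃ f : ℕ → ℕ, ∀ g ∈ F, ∀ᶠ k in Filter.atTop, g k ≤ f k}

/-- The covering number of the meagre ideal: the least size of a family of meagre sets
covering `2^ω`. -/
noncomputable def covMeagre : Cardinal.{0} :=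
  sInf {c : Cardinal.{0} | ∃ F : Set (Set (ℕ → Bool)), Cardinal.mk ↥F = c ∧
    (∀ M ∈ F, IsMeagre M) ∧ ⋃₀ F = univ}

end Pool.Agent.Lib.MP_baa34e_lc.H90
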