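import Pool.Agent.Lib.MP_baa34e_lc.H90.Bad

namespace Pool.Agent.Lib.MP_baa34e_lc.H90

open Set Filter Cardinal

set_option linter.deprecated false

lemma good_of_index {κ : Cardinal.{0}} (hκ : ℵ₀ < κ)
    (havoid : ∀ Y : Set C, mk Y ≤ κ → ∃ c, DenseCode c ∧ ∀ y ∈ Y, ¬ R y c)
    {ι : Type} [LinearOrder ι] [WellFoundedLT ι] (𝒟 : Set (Set ι)) (h1 : Cardinal.mk 𝒟 ≤ κ)
    (h2 : ∀ D ∈ 𝒟, D.Countable)
    (h3 : ∀ D0 : Set ι, D0.Countable → ∃ i, ∃ D ∈ 𝒟, D0 ⊆ D ∧ D ⊆ Iio i)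
    (Y0 : Set C) (hY0 : mk Y0 = κ) (lev : C → ι)
    (hlev : ∀ i, mk {y | y ∈ Y0 ∧ lev y < i} < κ) :
    ∃ B, KDense κ B ∧ SmallHull κ B := by
  classical
  choose! pick hpick using havoid
  have hw : ∀ S : Set C, S.Countable → ∃ y, ∀ c ∈ S, DenseCode c → R y c := fun S => exists_hit
  choose! wit hwit using hw
  let step : (i : ι) → ((j : ι) → j < i → C) → C := fun i rec =>
    pick ((fun D => wit ((fun j => if h : j < i then rec j h else fun _ => false) '' D)) ''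
      {D | D ∈ 𝒟 ∧ D ⊆ Iio i})
  let c : ι → C := (wellFounded_lt (α := ι)).fix step
  have hc : ∀ i, c i = pick ((fun D => wit (c '' D)) '' {D | D ∈ 𝒟 ∧ D ⊆ Iio i}) := by
    intro i
    have : c i = step i (fun j _ => c j) := (wellFounded_lt (α := ι)).fix_eq step i
    rw [this]
    simp only [step]
    congr 1
    refine image_congr fun D hD => ?_
    congr 1
    refine image_congr fun j hj => ?_
    have : j < i := hD.2 hj
    simp [this]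
  have hcard : ∀ i, mk ((fun D => wit (c '' D)) '' {D | D ∈ 𝒟 ∧ D ⊆ Iio i}) ≤ κ := fun i =>
    mk_image_le.trans ((mk_le_mk_of_subset fun D hD => hD.1).trans h1)
  have hdense : ∀ i, DenseCode (c i) := fun i => by rw [hc i]; exact (hpick _ (hcard i)).1
  have hav : ∀ i, ∀ D ∈ 𝒟, D ⊆ Iio i → ¬ R (wit (c '' D)) (c i) := fun i D hD hD' => by
    have := (hpick _ (hcard i)).2 (wit (c '' D)) ⟨D, ⟨hD, hD'⟩, rfl⟩
    rwa [← hc i] at this
  let pt : C → C := fun y => il (c (lev y)) y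
  have hpt : Function.Injective pt := fun a b h => by simpa [pt] using congrArg od h
  refine ⟨fm (pt '' Y0), kdense_fm hκ (by rw [mk_image_eq hpt, hY0]), ?_⟩
  intro D hD hDc
  have : ∀ x ∈ D, ∃ y ∈ Y0, x =ᶠ[atTop] pt y := by
    intro x hx
    obtain ⟨_, ⟨y, hy, rfl⟩, h⟩ := hD hx
    exact ⟨y, hy, h⟩
  choose! g hg1 hg2 using this
  obtain ⟨i, E, hE, hE1, hE2⟩ := h3 ((fun x => lev (g x)) '' D) (hDc.image _)
  refine ⟨ev ⁻¹' {e | R (wit (c '' E)) e}, IsGδ.preimage continuous_ev (isGδ_R_right _), ?_, ?_⟩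
  · intro x hx
    have h1 : R (wit (c '' E)) (c (lev (g x))) :=
      hwit _ ((h2 E hE).image _) _ ⟨_, hE1 ⟨x, hx, rfl⟩, rfl⟩ (hdense _)
    have h2 : ev x =ᶠ[atTop] c (lev (g x)) := by simpa [pt] using ev_congr (hg2 x hx)
    exact R_congr EventuallyEq.rfl h2.symm h1
  · refine lt_of_le_of_lt (mk_le_mk_of_subset
      (t := fm (pt '' {y | y ∈ Y0 ∧ lev y < i})) ?_) (mk_fm_lt hκ (mk_image_le.trans_lt (hlev i)))
    rintro x ⟨hx1, _, ⟨y, hy, rfl⟩, hx2⟩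
    refine ⟨pt y, ⟨y, ⟨hy, ?_⟩, rfl⟩, hx2⟩
    by_contra hlt
    have h2 : ev x =ᶠ[atTop] c (lev y) := by simpa [pt] using ev_congr hx2
    exact hav (lev y) E hE (fun j hj => lt_of_lt_of_le (hE2 hj) (not_lt.1 hlt))
      (R_congr EventuallyEq.rfl h2 hx1)

/-- the countable subsets of `α` have a cofinal family of size at most `κ` -/
def Cov (α : Type) (κ : Cardinal.{0}) : Prop :=
  ∃ 𝒟 : Set (Set α), Cardinal.mk 𝒟 ≤ κ ∧ (∀ D ∈ 𝒟, D.Countable) ∧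
    ∀ S : Set α, S.Countable → ∃ D ∈ 𝒟, S ⊆ D

lemma Cov.of_le {α β : Type} {κ : Cardinal.{0}} (h : Cov β κ) (hαβ : mk α ≤ mk β) : Cov α κ := by
  obtain ⟨f⟩ := hαβ
  obtain ⟨𝒟, h1, h2, h3⟩ := h
  refine ⟨(fun D => f ⁻¹' D) '' 𝒟, mk_image_le.trans h1, ?_, fun S hS => ?_⟩
  · rintro _ ⟨D, hD, rfl⟩
    exact (h2 D hD).preimage f.injective
  · obtain ⟨D, hD, hSD⟩ := h3 (f '' S) (hS.image _)
    exact ⟨_, ⟨D, hD, rfl⟩, fun x hx => hSD ⟨x, hx, rfl⟩⟩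

lemma cov_of_cof {α : Type} {κ : Cardinal.{0}}
    (h : Order.cof {s : Set α // s.Countable} ≤ κ) : Cov α κ := by
  obtain ⟨s, hs, hs'⟩ := Order.exists_cof_eq {s : Set α // s.Countable}
  refine ⟨Subtype.val '' s, mk_image_le.trans (hs'.le.trans h), ?_, fun S hS => ?_⟩
  · rintro _ ⟨D, -, rfl⟩; exact D.2
  · obtain ⟨D, hD, hSD⟩ := hs ⟨S, hS⟩
    exact ⟨D.1, ⟨D, hD, rfl⟩, hSD⟩

lemma bdd_of_lt_cof {ι : Type} [LinearOrder ι] {S : Set ι} (h : mk S < Order.cof ι) :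
    ∃ i, S ⊆ Iio i := by
  by_contra hcon
  push Not at hcon
  refine absurd (Order.cof_le (s := S) fun a => ?_) (not_le.2 h)
  obtain ⟨b, hb, hb'⟩ := not_subset.1 (hcon a)
  exact ⟨b, hb, not_lt.1 hb'⟩

lemma cov_family {ι : Type} [LinearOrder ι] {κ : Cardinal.{0}} (hκ : ℵ₀ ≤ κ) (hι : mk ι ≤ κ)
    (hcof : ℵ₀ < Order.cof ι) (h : ∀ i : ι, Cov (Iio i) κ) :
    ∃ 𝒟 : Set (Set ι), Cardinal.mk 𝒟 ≤ κ ∧ (∀ D ∈ 𝒟, D.Countable) ∧
      ∀ D0 : Set ι, D0.Countable → ∃ i, ∃ D ∈ 𝒟, D0 ⊆ D ∧ D ⊆ Iio i := by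
  choose F hF1 hF2 hF3 using h
  refine ⟨⋃ i, (fun D : Set (Iio i) => Subtype.val '' D) '' F i, ?_, ?_, fun D0 hD0 => ?_⟩
  · refine (mk_iUnion_le _).trans ?_
    have : (⨆ i, Cardinal.mk ((fun D : Set (Iio i) => Subtype.val '' D) '' F i)) ≤ κ :=
      ciSup_le' fun i => mk_image_le.trans (hF1 i)
    exact (mul_le_mul' hι this).trans (mul_eq_self hκ).le
  · intro D hD
    obtain ⟨i, E, hE, rfl⟩ := mem_iUnion.1 hD
    exact (hF2 i E hE).image _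
  · obtain ⟨i, hi⟩ := bdd_of_lt_cof ((le_aleph0_iff_set_countable.2 hD0).trans_lt hcof)
    obtain ⟨E, hE, hE'⟩ := hF3 i (Subtype.val ⁻¹' D0)
      (hD0.preimage_of_injOn Subtype.val_injective.injOn)
    refine ⟨i, Subtype.val '' E, mem_iUnion.2 ⟨i, E, hE, rfl⟩, fun x hx => ?_, ?_⟩
    · exact ⟨⟨x, hi hx⟩, hE' hx, rfl⟩
    · rintro _ ⟨x, -, rfl⟩; exact x.2

lemma cov_all {κ ν : Cardinal.{0}} (hκ : ℵ₀ ≤ κ) (hν : ν ≤ κ)
    (h : ∀ μ < ν, ℵ₀ < μ → μ.ord.cof = ℵ₀ → Order.cof {s : Set μ.out // s.Countable} ≤ κ) :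
    ∀ μ < ν, Cov μ.out κ := by
  intro μ
  induction μ using WellFoundedLT.induction with
  | ind μ ih =>
    intro hμ
    rcases le_or_gt μ ℵ₀ with h0 | h0
    · have : Countable μ.out := mk_le_aleph0_iff.1 (by rwa [mk_out])
      exact ⟨{Set.univ}, by simpa using one_le_aleph0.trans hκ, by simp [countable_univ],
        fun S _ => ⟨Set.univ, rfl, subset_univ _⟩⟩
    · have hc : ℵ₀ ≤ μ.ord.cof := Ordinal.aleph0_le_cof.2 (isSuccLimit_ord h0.le)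
      rcases hc.eq_or_lt with h1 | h1
      · exact cov_of_cof (h μ hμ h0 h1.symm)
      · have h2 : ∀ i : μ.ord.ToType, Cov (Iio i) κ := fun i =>
          (ih _ (mk_Iio_toType_ord_lt i) ((mk_Iio_toType_ord_lt i).trans hμ)).of_le
            (by rw [mk_out])
        obtain ⟨𝒟, a1, a2, a3⟩ := cov_family (ι := μ.ord.ToType) hκ
          (by rw [mk_toType, card_ord]; exact hμ.le.trans hν)
          (by rwa [Ordinal.cof_toType]) h2
        have : Cov μ.ord.ToType κ := ⟨𝒟, a1, a2, fun S hS => by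
          obtain ⟨_, D, hD, hSD, -⟩ := a3 S hS
          exact ⟨D, hD, hSD⟩⟩
        exact this.of_le (by rw [mk_out, mk_toType, card_ord])

lemma good_of_cov {κ : Cardinal.{0}} (hκ : ℵ₀ < κ) (hc : κ ≤ continuum)
    (havoid : ∀ Y : Set C, mk Y ≤ κ → ∃ c, DenseCode c ∧ ∀ y ∈ Y, ¬ R y c)
    (hcof : ℵ₀ < κ.ord.cof)
    (h : ∀ μ < κ.ord.cof, ℵ₀ < μ → μ.ord.cof = ℵ₀ →
      Order.cof {s : Set μ.out // s.Countable} ≤ κ) :
    ∃ B, KDense κ B ∧ SmallHull κ B := by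
  classical
  set ν := κ.ord.cof with hν
  have hνκ : ν ≤ κ := Ordinal.cof_ord_le κ
  have hall := cov_all hκ.le hνκ h
  have hι : mk ν.ord.ToType = ν := by rw [mk_toType, card_ord]
  have hcι : Order.cof ν.ord.ToType = ν := by
    rw [Ordinal.cof_toType, hν, Ordinal.cof_ord_cof]
  obtain ⟨𝒟, a1, a2, a3⟩ := cov_family (ι := ν.ord.ToType) hκ.le (hι.le.trans hνκ)
    (by rwa [hcι]) fun i => (hall _ (mk_Iio_toType_ord_lt i)).of_le (by rw [mk_out])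
  obtain ⟨Y0, hY0⟩ := exists_set_mk hc
  obtain ⟨e⟩ : Nonempty (Y0 ≃ κ.ord.ToType) := Cardinal.eq.1 (by rw [hY0, mk_toType, card_ord])
  obtain ⟨s, hs, hs'⟩ := Order.exists_cof_eq κ.ord.ToType
  obtain ⟨e'⟩ : Nonempty (ν.ord.ToType ≃ s) :=
    Cardinal.eq.1 (by rw [hι, hs', Ordinal.cof_toType])
  have hl : ∀ t : κ.ord.ToType, ∃ i : ν.ord.ToType, t ≤ (e' i).1 := fun t => by
    obtain ⟨b, hb, htb⟩ := hs t
    exact ⟨e'.symm ⟨b, hb⟩, by simpa using htb⟩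
  choose l hl using hl
  have hne : Nonempty ν.ord.ToType := by
    rw [← mk_ne_zero_iff, hι]
    exact (aleph0_pos.trans hcof).ne'
  refine good_of_index hκ havoid 𝒟 a1 a2 a3 Y0 hY0
    (fun y => if h : y ∈ Y0 then l (e ⟨y, h⟩) else Classical.arbitrary _) fun i => ?_
  obtain ⟨a, ha⟩ := bdd_of_lt_cof (S := (fun j => (e' j).1) '' Iio i)
    (mk_image_le.trans_lt (by rw [Ordinal.cof_toType]; exact mk_Iio_toType_ord_lt i))
  refine lt_of_le_of_lt ?_ (mk_Iio_toType_ord_lt a)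
  refine mk_le_of_injective (f := fun y => (⟨e ⟨y.1, y.2.1⟩, ?_⟩ : Iio a)) ?_
  · have h1 := y.2.2
    simp only [y.2.1, dif_pos] at h1
    exact lt_of_le_of_lt (hl _) (ha ⟨_, h1, rfl⟩)
  · intro y z hyz
    have := e.injective (Subtype.mk.inj hyz)
    exact Subtype.ext (Subtype.mk.inj this)

lemma no_singular {μ : Cardinal.{0}} (h1 : μ < aleph Ordinal.omega0) (h2 : ℵ₀ < μ) :
    μ.ord.cof ≠ ℵ₀ := by
  obtain ⟨o, rfl⟩ : μ ∈ range aleph := mem_range_aleph_iff.2 h2.le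
  rw [aleph_lt_aleph] at h1
  obtain ⟨n, rfl⟩ := Ordinal.lt_omega0.1 h1
  cases n with
  | zero => simp at h2
  | succ n =>
    have hr : Cardinal.IsRegular (aleph ((n + 1 : ℕ) : Ordinal)) := by
      rw [Nat.cast_succ]
      exact isRegular_aleph_add_one _
    rw [hr.cof_ord]
    exact h2.ne'

end Pool.Agent.Lib.MP_baa34e_lc.H90
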